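import Pool.Agent.H62.CYC.DefsR

set_option autoImplicit false

/-! Project CYC (helper62), task LA2 (writer: helper68): the signature lemma. -/

namespace Pool.Agent.H68.CYC

open Finset Matrix Pool.Agent.H62.CYC

/-- twice the rank of the projection `(1 + F)/2` -/
theorem rank_proj {n : ℕ} (F : Matrix (Fin n) (Fin n) ℝ) (hF : F * F = 1) :
    2 * (Module.finrank ℝ (LinearMap.range (Matrix.toLin' ((1 / 2 : ℝ) • (1 + F)))) : ℝ) =
      n + F.trace := by
  set P := Matrix.toLin' ((1 / 2 : ℝ) • (1 + F)) with hP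
  have hid : IsIdempotentElem P := by
    rw [IsIdempotentElem, hP, Module.End.mul_eq_comp, ← Matrix.toLin'_mul]
    congr 1
    have h2 : (1 + F) * (1 + F) = (2 : ℝ) • (1 + F) := by
      rw [add_mul, mul_add, mul_add, hF, one_mul, one_mul, mul_one, two_smul]
      abel
    rw [smul_mul_smul_comm, h2, smul_smul]
    norm_num
  have h1 := (LinearMap.IsIdempotentElem.isProj_range P hid).trace
  rw [← h1, hP, Matrix.trace_toLin'_eq, Matrix.trace_smul, Matrix.trace_add, Matrix.trace_one]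
  rw [smul_eq_mul, Fintype.card_fin]
  ring

theorem sum_ext {n : ℕ} (g : Fin n → ℝ) (b : {i // 0 < g i} → ℝ) :
    ∑ i, g i * (Function.ExtendByZero.linearMap ℝ (Subtype.val : {i // 0 < g i} → Fin n) b i) ^ 2 =
      ∑ i : {i // 0 < g i}, g i * b i ^ 2 := by
  symm
  apply Finset.sum_bij_ne_zero (fun (i : {i // 0 < g i}) _ _ => (i : Fin n))
  · intro i _ _
    exact mem_univ _
  · intro i _ _ j _ _ h
    exact Subtype.ext h
  · intro i _ hi
    by_cases h : 0 < g i
    · refine ⟨⟨i, h⟩, mem_univ _, ?_, rfl⟩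
      have h1 : Function.ExtendByZero.linearMap ℝ (Subtype.val : {i // 0 < g i} → Fin n) b i = b ⟨i, h⟩ := by
        rw [Function.ExtendByZero.linearMap_apply]
        exact Subtype.val_injective.extend_apply b 0 ⟨i, h⟩
      rwa [h1] at hi
    · exfalso
      apply hi
      have h1 : Function.ExtendByZero.linearMap ℝ (Subtype.val : {i // 0 < g i} → Fin n) b i = 0 := by
        rw [Function.ExtendByZero.linearMap_apply]
        rw [Function.extend_apply' _ _ _ (fun ⟨j, hj⟩ => h (hj ▸ j.2))]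
        rfl
      rw [h1]
      simp
  · intro i _ _
    have h1 : Function.ExtendByZero.linearMap ℝ (Subtype.val : {i // 0 < g i} → Fin n) b i = b i := by
      rw [Function.ExtendByZero.linearMap_apply]
      exact Subtype.val_injective.extend_apply b 0 i
    rw [h1]

theorem la2 : S_LA2 := by
  intro n J g F Y hF hadj _ hY hdim x hx hx0
  by_contra hneg
  rw [not_lt] at hneg
  set P := Matrix.toLin' ((1 / 2 : ℝ) • (1 + F)) with hP
  set A := Function.ExtendByZero.linearMap ℝ (Subtype.val : {i // 0 < J i} → Fin n) with hA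
  set B := Function.ExtendByZero.linearMap ℝ (Subtype.val : {i // 0 < g i} → Fin n) with hB
  let D := (({i // 0 < J i} → ℝ) × ({i // 0 < g i} → ℝ)) × (ℝ × ℝ)
  let U : D →ₗ[ℝ] (Fin n → ℝ) :=
    A ∘ₗ LinearMap.fst ℝ _ _ ∘ₗ LinearMap.fst ℝ _ _ -
      (LinearMap.toSpanSingleton ℝ (Fin n → ℝ) x) ∘ₗ LinearMap.fst ℝ _ _ ∘ₗ LinearMap.snd ℝ _ _
  let W : D →ₗ[ℝ] (Fin n → ℝ) :=
    Matrix.toLin' Y ∘ₗ B ∘ₗ LinearMap.snd ℝ _ _ ∘ₗ LinearMap.fst ℝ _ _ -
      (LinearMap.toSpanSingleton ℝ (Fin n → ℝ) x) ∘ₗ LinearMap.snd ℝ _ _ ∘ₗ LinearMap.snd ℝ _ _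
  let Φ : D →ₗ[ℝ] (Fin n → ℝ) × LinearMap.range P := (U - W).prod (P.rangeRestrict ∘ₗ U)
  have hrank := rank_proj F hF
  rw [← hP] at hrank
  have hlt : Module.finrank ℝ ((Fin n → ℝ) × LinearMap.range P) < Module.finrank ℝ D := by
    rw [Module.finrank_prod, Module.finrank_prod, Module.finrank_prod, Module.finrank_prod,
      Module.finrank_fintype_fun_eq_card, Module.finrank_fintype_fun_eq_card,
      Module.finrank_fintype_fun_eq_card, Fintype.card_subtype, Fintype.card_subtype,
      Module.finrank_self, Fintype.card_fin]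
    have h1 : ((n + Module.finrank ℝ (LinearMap.range P) : ℕ) : ℝ) <
        (((univ.filter fun i => 0 < J i).card + (univ.filter fun i => 0 < g i).card + (1 + 1) : ℕ) : ℝ) := by
      push_cast
      linarith
    exact_mod_cast h1
  have hker : LinearMap.ker Φ ≠ ⊥ := LinearMap.ker_ne_bot_of_finrank_lt hlt
  obtain ⟨d, hd, hd0⟩ := Submodule.exists_mem_ne_zero_of_ne_bot hker
  rw [LinearMap.mem_ker] at hd
  obtain ⟨⟨a, b⟩, ⟨s, t⟩⟩ := d
  have hd1 : U ((a, b), (s, t)) - W ((a, b), (s, t)) = 0 := by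
    have := congrArg Prod.fst hd
    simpa [Φ] using this
  have hd2 : P (U ((a, b), (s, t))) = 0 := by
    have := congrArg (fun z => ((Prod.snd z : LinearMap.range P) : Fin n → ℝ)) hd
    simpa [Φ] using this
  have hU : U ((a, b), (s, t)) = A a - s • x := rfl
  have hW : W ((a, b), (s, t)) = Y *ᵥ (B b) - t • x := rfl
  set v := U ((a, b), (s, t)) with hv
  have hFv : F *ᵥ v = -v := by
    rw [hP, Matrix.toLin'_apply, Matrix.smul_mulVec, Matrix.add_mulVec, Matrix.one_mulVec] at hd2
    have h1 : v + F *ᵥ v = 0 := by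
      rcases smul_eq_zero.1 hd2 with h | h
      · norm_num at h
      · exact h
    exact eq_neg_of_add_eq_zero_right h1
  have hu : A a = s • x + v := by
    rw [hU]
    abel
  have hw : Y *ᵥ (B b) = t • x + v := by
    rw [sub_eq_zero] at hd1
    rw [hd1, hW]
    abel
  -- the form
  set Q : (Fin n → ℝ) → (Fin n → ℝ) → ℝ := fun p q => ∑ i, J i * (p i * q i) with hQ
  have hQF : ∀ p q, Q (F *ᵥ p) q = Q p (F *ᵥ q) := by
    intro p q
    simp only [hQ, Matrix.mulVec, dotProduct, Finset.mul_sum, Finset.sum_mul]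
    rw [Finset.sum_comm]
    apply sum_congr rfl
    intro j _
    apply sum_congr rfl
    intro i _
    have := hadj i j
    calc J i * (F i j * p j * q i) = (J i * F i j) * (p j * q i) := by ring
      _ = (J j * F j i) * (p j * q i) := by rw [this]
      _ = _ := by ring
  have hxv : Q x v = 0 := by
    have h1 := hQF x v
    rw [hx, hFv] at h1
    have h2 : Q x (-v) = - Q x v := by
      simp only [hQ, Pi.neg_apply, mul_neg, Finset.sum_neg_distrib]
    linarith
  have hQuu : Q (A a) (A a) = s ^ 2 * Q x x + Q v v := by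
    have : Q (A a) (A a) = s ^ 2 * Q x x + 2 * s * Q x v + Q v v := by
      rw [hu]
      simp only [hQ, Pi.add_apply, Pi.smul_apply, smul_eq_mul, Finset.mul_sum, ← Finset.sum_add_distrib]
      apply sum_congr rfl
      intro i _
      ring
    rw [this, hxv]
    ring
  have hQww : Q (Y *ᵥ (B b)) (F *ᵥ (Y *ᵥ (B b))) = t ^ 2 * Q x x - Q v v := by
    rw [hw, Matrix.mulVec_add, Matrix.mulVec_smul, hx, hFv]
    have : Q (t • x + v) (t • x + -v) = t ^ 2 * Q x x - Q v v := by
      simp only [hQ, Pi.add_apply, Pi.smul_apply, Pi.neg_apply, smul_eq_mul, Finset.mul_sum,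
        ← Finset.sum_sub_distrib]
      apply sum_congr rfl
      intro i _
      ring
    exact this
  have hG : Q (Y *ᵥ (B b)) (F *ᵥ (Y *ᵥ (B b))) = ∑ i, g i * (B b i) ^ 2 := by
    have h1 : (B b) ⬝ᵥ ((Yᵀ * diagonal J * F * Y) *ᵥ (B b)) = ∑ i, g i * (B b i) ^ 2 := by
      rw [hY]
      simp only [dotProduct, Matrix.mulVec_diagonal]
      apply sum_congr rfl
      intro i _
      ring
    rw [← h1]
    rw [← Matrix.mulVec_mulVec, ← Matrix.mulVec_mulVec, ← Matrix.mulVec_mulVec,
      Matrix.dotProduct_mulVec, Matrix.vecMul_transpose]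
    simp only [hQ, dotProduct, Matrix.mulVec_diagonal]
    apply sum_congr rfl
    intro i _
    ring
  have hJ : Q (A a) (A a) = ∑ i, J i * (A a i) ^ 2 := by
    simp only [hQ]
    apply sum_congr rfl
    intro i _
    ring
  have hsJ := sum_ext J a
  have hsg := sum_ext g b
  rw [← hA] at hsJ
  rw [← hB] at hsg
  have hJ0 : 0 ≤ ∑ i : {i // 0 < J i}, J i * a i ^ 2 :=
    sum_nonneg fun i _ => mul_nonneg i.2.le (sq_nonneg _)
  have hg0 : 0 ≤ ∑ i : {i // 0 < g i}, g i * b i ^ 2 :=
    sum_nonneg fun i _ => mul_nonneg i.2.le (sq_nonneg _)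
  have hxx : Q x x ≤ 0 := by
    refine le_trans (le_of_eq ?_) hneg
    simp only [hQ]
    apply sum_congr rfl
    intro i _
    ring
  have htot : ∑ i : {i // 0 < J i}, J i * a i ^ 2 + ∑ i : {i // 0 < g i}, g i * b i ^ 2 =
      (s ^ 2 + t ^ 2) * Q x x := by
    rw [← hsJ, ← hsg, ← hJ, ← hG, hQuu, hQww]
    ring
  have hle : (s ^ 2 + t ^ 2) * Q x x ≤ 0 := mul_nonpos_of_nonneg_of_nonpos (by positivity) hxx
  have hJ1 : ∑ i : {i // 0 < J i}, J i * a i ^ 2 = 0 := by linarith
  have hg1 : ∑ i : {i // 0 < g i}, g i * b i ^ 2 = 0 := by linarith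
  have ha : a = 0 := by
    funext i
    have h1 := (sum_eq_zero_iff_of_nonneg fun i _ => mul_nonneg i.2.le (sq_nonneg (a i))).1 hJ1 i
      (mem_univ _)
    rcases mul_eq_zero.1 h1 with h | h
    · exact absurd h i.2.ne'
    · exact pow_eq_zero_iff (two_ne_zero) |>.1 h
  have hb : b = 0 := by
    funext i
    have h1 := (sum_eq_zero_iff_of_nonneg fun i _ => mul_nonneg i.2.le (sq_nonneg (b i))).1 hg1 i
      (mem_univ _)
    rcases mul_eq_zero.1 h1 with h | h
    · exact absurd h i.2.ne'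
    · exact pow_eq_zero_iff (two_ne_zero) |>.1 h
  have hfix : ∀ r : ℝ, r • x + v = 0 → r = 0 := by
    intro r hr
    have h1 : F *ᵥ (r • x + v) = 0 := by rw [hr, Matrix.mulVec_zero]
    rw [Matrix.mulVec_add, Matrix.mulVec_smul, hx, hFv] at h1
    have h2 : (2 * r) • x = 0 := by
      have : (2 * r) • x = (r • x + v) + (r • x + -v) := by
        rw [two_mul, add_smul]
        abel
      rw [this, hr, h1, add_zero]
    rcases smul_eq_zero.1 h2 with h | h
    · linarith
    · exact absurd h hx0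
  have hs : s = 0 := hfix s (by rw [← hu, ha, map_zero])
  have ht : t = 0 := hfix t (by rw [← hw, hb, map_zero, Matrix.mulVec_zero])
  apply hd0
  rw [ha, hb, hs, ht]
  rfl

end Pool.Agent.H68.CYC
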