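import Pool.Agent.H62.CYC.DefsX

set_option autoImplicit false

/-! Project CYC (helper62), task TAU (writer: helper68): the Gauss sum. -/

namespace Pool.Agent.H68.CYC.Tau

open Finset Pool.Agent.H62.CYC
open scoped Real

noncomputable section

/-! ### Algebra -/

/-- `{n} = z^n - z^{-n}` -/
def br (z : ℂ) (n : ℤ) : ℂ := z ^ n - z ^ (-n)

/-- `X_n = z^{2n} + z^{-2n}` -/
def Xx (z : ℂ) (n : ℤ) : ℂ := z ^ (2 * n) + z ^ (-(2 * n))

/-- `∏_{l=-k}^{k} {N + l}` -/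
def Pk (z : ℂ) (k : ℕ) (N : ℤ) : ℂ := ∏ i ∈ range (2 * k + 1), br z (N - k + i)

/-- `∏_{l=-k-1}^{k} {N + l}` -/
def Ps (z : ℂ) (k : ℕ) (N : ℤ) : ℂ := ∏ i ∈ range (2 * k + 2), br z (N - k - 1 + i)

theorem br_neg (z : ℂ) (n : ℤ) : br z (-n) = - br z n := by
  unfold br
  rw [neg_neg]
  ring

theorem Ps_succ (z : ℂ) (k : ℕ) (N : ℤ) : Ps z k (N + 1) = Pk z k N * br z (N + k + 1) := by
  unfold Ps Pk
  rw [show 2 * k + 2 = (2 * k + 1) + 1 by ring, prod_range_succ]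
  congr 1
  · apply prod_congr rfl
    intro i _
    congr 1
    ring
  · congr 1
    push_cast
    ring

theorem Ps_eq (z : ℂ) (k : ℕ) (N : ℤ) : Ps z k N = br z (N - k - 1) * Pk z k N := by
  unfold Ps Pk
  rw [show 2 * k + 2 = (2 * k + 1) + 1 by ring, prod_range_succ', mul_comm]
  congr 1
  · congr 1
    push_cast
    ring
  · apply prod_congr rfl
    intro i _
    congr 1
    push_cast
    ring

theorem Pk_succ (z : ℂ) (k : ℕ) (N : ℤ) :
    Pk z (k + 1) N = br z (N - k - 1) * Pk z k N * br z (N + k + 1) := by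
  unfold Pk
  rw [show 2 * (k + 1) + 1 = (2 * k + 1) + 1 + 1 by ring, prod_range_succ, prod_range_succ', mul_comm (∏ i ∈ range (2 * k + 1), _) _]
  congr 1
  · congr 1
    · congr 1
      push_cast
      ring
    · apply prod_congr rfl
      intro i _
      congr 1
      push_cast
      ring
  · congr 1
    push_cast
    ring

theorem Pk_zero (z : ℂ) (N : ℤ) : Pk z 0 N = br z N := by
  unfold Pk
  simp

theorem br_mul {z : ℂ} (hz : z ≠ 0) (N l : ℤ) : br z (N - l) * br z (N + l) = Xx z N - Xx z l := by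
  unfold br Xx
  rw [zpow_neg, zpow_neg, zpow_neg, zpow_neg, two_mul, two_mul, zpow_add₀ hz, zpow_add₀ hz, zpow_add₀ hz,
    zpow_sub₀ hz]
  have h1 : z ^ N ≠ 0 := zpow_ne_zero _ hz
  have h2 : z ^ l ≠ 0 := zpow_ne_zero _ hz
  field_simp
  ring

theorem Pk_eq {z : ℂ} (hz : z ≠ 0) (k : ℕ) (N : ℤ) :
    Pk z k N = br z N * ∏ l ∈ range k, (Xx z N - Xx z ((l : ℤ) + 1)) := by
  induction k with
  | zero => simp [Pk_zero]
  | succ k ih =>
    rw [Pk_succ, ih, prod_range_succ, ← br_mul hz]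
    have e1 : N - (k : ℤ) - 1 = N - ((k : ℤ) + 1) := by ring
    have e2 : N + (k : ℤ) + 1 = N + ((k : ℤ) + 1) := by ring
    rw [e1, e2]
    ring

theorem Pk_neg {z : ℂ} (hz : z ≠ 0) (k : ℕ) (N : ℤ) : Pk z k (-N) = - Pk z k N := by
  rw [Pk_eq hz, Pk_eq hz, br_neg]
  have : ∀ l : ℤ, Xx z (-N) - Xx z l = Xx z N - Xx z l := by
    intro l
    unfold Xx
    rw [show 2 * -N = -(2 * N) by ring, neg_neg]
    ring
  simp_rw [this]
  ring

theorem Pk_at_zero {z : ℂ} (hz : z ≠ 0) (k : ℕ) : Pk z k 0 = 0 := by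
  rw [Pk_eq hz]
  unfold br
  simp

/-- `φ(N) = Ψ(N) z^{N²}` -/
def ph (z : ℂ) (k : ℕ) (N : ℤ) : ℂ := Ps z k N * z ^ (N ^ 2)

/-- the summand -/
def Wk (z : ℂ) (k : ℕ) (N : ℤ) : ℂ := br z N * Pk z k N * z ^ (N ^ 2)

theorem step {z : ℂ} (hz : z ≠ 0) (k : ℕ) (N : ℤ) :
    (ph z k (N + 1) - ph z k (-N)) - (ph z k N - ph z k (1 - N)) =
      z ^ ((k : ℤ) + 2) * ((Xx z N + 1) * Wk z k N) -
        (z ^ (-(k : ℤ)) + z ^ (-(k : ℤ) - 1) + z ^ ((k : ℤ) + 1)) * Wk z k N := by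
  have e1 : ph z k (N + 1) = Pk z k N * br z (N + k + 1) * (z ^ (N ^ 2) * (z ^ N * z ^ N * z)) := by
    unfold ph
    rw [Ps_succ, show (N + 1) ^ 2 = N ^ 2 + (N + N + 1) by ring, zpow_add₀ hz, zpow_add₀ hz, zpow_add₀ hz,
      zpow_one]
  have e2 : ph z k (-N) = br z (-N - k - 1) * (- Pk z k N) * z ^ (N ^ 2) := by
    unfold ph
    rw [Ps_eq, Pk_neg hz, neg_sq]
  have e3 : ph z k N = br z (N - k - 1) * Pk z k N * z ^ (N ^ 2) := by
    unfold ph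
    rw [Ps_eq]
  have e4 : ph z k (1 - N) = (- Pk z k N) * br z (-N + k + 1) * (z ^ (N ^ 2) * (z / (z ^ N * z ^ N))) := by
    unfold ph
    rw [show 1 - N = -N + 1 by ring, Ps_succ, Pk_neg hz,
      show (-N + 1) ^ 2 = N ^ 2 + (1 - (N + N)) by ring, zpow_add₀ hz, zpow_sub₀ hz, zpow_add₀ hz, zpow_one]
  rw [e1, e2, e3, e4]
  unfold Wk br Xx
  have hN : z ^ N ≠ 0 := zpow_ne_zero _ hz
  have hk : z ^ (k : ℤ) ≠ 0 := zpow_ne_zero _ hz
  have z2 : z ^ (2 : ℤ) = z * z := by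
    rw [zpow_ofNat]
    ring
  simp only [zpow_neg, zpow_add₀ hz, zpow_sub₀ hz, zpow_one, two_mul, neg_add, neg_sub, z2]
  field_simp
  ring

theorem period {z : ℂ} {M : ℕ} (hz : z ≠ 0) (hM : z ^ (2 * M + 1) = 1) (k : ℕ) :
    ph z k ((M : ℤ) + 1) = ph z k (-(M : ℤ)) := by
  have hM' : z ^ ((2 * M + 1 : ℕ) : ℤ) = 1 := by
    rw [zpow_natCast]
    exact hM
  have hb : ∀ n : ℤ, br z (n + ((2 * M + 1 : ℕ) : ℤ)) = br z n := by
    intro n
    unfold br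
    rw [zpow_neg, zpow_neg, zpow_add₀ hz, hM', mul_one]
  unfold ph
  congr 1
  · unfold Ps
    apply prod_congr rfl
    intro i _
    rw [← hb (-(M : ℤ) - k - 1 + i)]
    congr 1
    push_cast
    ring
  · rw [show ((M : ℤ) + 1) ^ 2 = (-(M : ℤ)) ^ 2 + ((2 * M + 1 : ℕ) : ℤ) by push_cast; ring, zpow_add₀ hz, hM',
      mul_one]

/-- the sum -/
def Tk (z : ℂ) (M k : ℕ) : ℂ := ∑ b ∈ range M, Wk z k ((b : ℤ) + 1)

theorem rec {z : ℂ} {M : ℕ} (hz : z ≠ 0) (hM : z ^ (2 * M + 1) = 1) (k : ℕ) :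
    Tk z M (k + 1) = - Tk z M k * (1 + z ^ (2 * (k : ℤ) + 2)) * (1 - z ^ (-(2 * (k : ℤ) + 3))) := by
  have h1 : ∑ b ∈ range M, ((ph z k (((b : ℤ) + 1) + 1) - ph z k (-((b : ℤ) + 1))) -
      (ph z k ((b : ℤ) + 1) - ph z k (1 - ((b : ℤ) + 1)))) = 0 := by
    have h2 := Finset.sum_range_sub (fun b : ℕ => ph z k ((b : ℤ) + 1) - ph z k (-(b : ℤ))) M
    have h3 : ∑ b ∈ range M, ((ph z k (((b : ℤ) + 1) + 1) - ph z k (-((b : ℤ) + 1))) -
      (ph z k ((b : ℤ) + 1) - ph z k (1 - ((b : ℤ) + 1)))) =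
      ∑ b ∈ range M, ((fun b : ℕ => ph z k ((b : ℤ) + 1) - ph z k (-(b : ℤ))) (b + 1) -
        (fun b : ℕ => ph z k ((b : ℤ) + 1) - ph z k (-(b : ℤ))) b) := by
      apply sum_congr rfl
      intro b _
      simp only
      push_cast
      congr 2
      · congr 1
        ring
    rw [h3, h2]
    simp only [Nat.cast_zero, zero_add, neg_zero]
    rw [period hz hM k, sub_self]
    have h4 : ph z k 1 = 0 := by
      unfold ph
      rw [show (1 : ℤ) = 0 + 1 by ring, Ps_succ, Pk_at_zero hz]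
      ring
    have h5 : ph z k 0 = 0 := by
      unfold ph
      rw [Ps_eq, Pk_at_zero hz]
      ring
    rw [h4, h5]
    ring
  have h6 : ∑ b ∈ range M, (z ^ ((k : ℤ) + 2) * ((Xx z ((b : ℤ) + 1) + 1) * Wk z k ((b : ℤ) + 1)) -
        (z ^ (-(k : ℤ)) + z ^ (-(k : ℤ) - 1) + z ^ ((k : ℤ) + 1)) * Wk z k ((b : ℤ) + 1)) = 0 := by
    rw [← h1]
    apply sum_congr rfl
    intro b _
    rw [step hz]
  rw [sum_sub_distrib, ← Finset.mul_sum, ← Finset.mul_sum] at h6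
  have h7 : ∑ b ∈ range M, (Xx z ((b : ℤ) + 1) + 1) * Wk z k ((b : ℤ) + 1) =
      Tk z M (k + 1) + (Xx z ((k : ℤ) + 1) + 1) * Tk z M k := by
    unfold Tk
    rw [Finset.mul_sum, ← Finset.sum_add_distrib]
    apply sum_congr rfl
    intro b _
    unfold Wk
    rw [Pk_eq hz, Pk_eq hz (k + 1), prod_range_succ]
    ring
  rw [h7] at h6
  change z ^ ((k : ℤ) + 2) * (Tk z M (k + 1) + (Xx z ((k : ℤ) + 1) + 1) * Tk z M k) -
    (z ^ (-(k : ℤ)) + z ^ (-(k : ℤ) - 1) + z ^ ((k : ℤ) + 1)) * Tk z M k = 0 at h6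
  have hk : z ^ (k : ℤ) ≠ 0 := zpow_ne_zero _ hz
  have z2 : z ^ (2 : ℤ) = z * z := by
    rw [zpow_ofNat]
    ring
  have z3 : z ^ (3 : ℤ) = z * z * z := by
    rw [zpow_ofNat]
    ring
  unfold Xx at h6
  have hA : z ^ ((k : ℤ) + 2) ≠ 0 := zpow_ne_zero _ hz
  have h8 : Tk z M (k + 1) = (z ^ ((k : ℤ) + 2))⁻¹ * ((z ^ (-(k : ℤ)) + z ^ (-(k : ℤ) - 1) + z ^ ((k : ℤ) + 1)) * Tk z M k)
      - (z ^ (2 * ((k : ℤ) + 1)) + z ^ (-(2 * ((k : ℤ) + 1))) + 1) * Tk z M k := by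
    rw [sub_eq_zero] at h6
    rw [← h6, inv_mul_cancel_left₀ hA]
    ring
  rw [h8]
  simp only [zpow_neg, zpow_add₀ hz, zpow_sub₀ hz, zpow_one, two_mul, neg_add, z2, z3]
  field_simp
  ring

/-! ### The Gauss sum -/

/-- the absolute value of the Gauss sum over the residue classes -/
theorem gauss_sq (r : ℕ) [NeZero r] (hr : Odd r) :
    ‖∑ x : ZMod r, ZMod.stdAddChar (x ^ 2)‖ ^ 2 = (r : ℝ) := by
  set g : ℂ := ∑ x : ZMod r, ZMod.stdAddChar (x ^ 2) with hg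
  have h2 : IsUnit (2 : ZMod r) := by
    have : Nat.Coprime 2 r := by
      rw [Nat.coprime_two_left]
      exact hr
    have := (ZMod.isUnit_iff_coprime 2 r).2 this
    simpa using this
  have h1 : g * (starRingEnd ℂ) g = (r : ℂ) := by
    rw [hg, map_sum, Finset.sum_mul_sum]
    have e1 : ∀ x : ZMod r, ∑ y : ZMod r, ZMod.stdAddChar (x ^ 2) * (starRingEnd ℂ) (ZMod.stdAddChar (y ^ 2)) =
        ∑ y : ZMod r, (ZMod.stdAddChar (x ^ 2 - y ^ 2) : ℂ) := by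
      intro x
      apply sum_congr rfl
      intro y _
      rw [sub_eq_add_neg, AddChar.map_add_eq_mul, AddChar.map_neg_eq_conj]
    simp_rw [e1]
    rw [Finset.sum_comm]
    have e2 : ∀ y : ZMod r, ∑ x : ZMod r, (ZMod.stdAddChar (x ^ 2 - y ^ 2) : ℂ) =
        ∑ d : ZMod r, (ZMod.stdAddChar (d ^ 2) : ℂ) * ZMod.stdAddChar (y * (2 * d)) := by
      intro y
      rw [← Equiv.sum_comp (Equiv.addRight y)]
      apply sum_congr rfl
      intro d _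
      rw [← AddChar.map_add_eq_mul]
      congr 1
      simp only [Equiv.coe_addRight]
      ring
    simp_rw [e2]
    rw [Finset.sum_comm]
    have e3 : ∀ d : ZMod r, ∑ y : ZMod r, (ZMod.stdAddChar (d ^ 2) : ℂ) * ZMod.stdAddChar (y * (2 * d)) =
        if d = 0 then (r : ℂ) else 0 := by
      intro d
      rw [← Finset.mul_sum, AddChar.sum_mulShift _ (ZMod.isPrimitive_stdAddChar r), ZMod.card]
      by_cases hd : d = 0
      · subst hd
        simp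
      · have : ¬ (2 * d = 0) := by
          intro h
          exact hd ((h2.mul_right_eq_zero).1 h)
        rw [if_neg this, if_neg hd]
        simp
    simp_rw [e3]
    simp
  have h3 : ((‖g‖ ^ 2 : ℝ) : ℂ) = (r : ℂ) := by
    rw [← h1, Complex.mul_conj, Complex.normSq_eq_norm_sq]
  exact_mod_cast h3

/-- the root of unity -/
def zz (M : ℕ) : ℂ := Complex.exp (2 * π * Complex.I / (2 * M + 1))

theorem zz_ne (M : ℕ) : zz M ≠ 0 := Complex.exp_ne_zero _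

theorem zz_zpow (M : ℕ) (n : ℤ) :
    zz M ^ n = Complex.exp (((2 * π * n / (2 * M + 1) : ℝ) : ℂ) * Complex.I) := by
  unfold zz
  rw [← Complex.exp_int_mul]
  congr 1
  push_cast
  ring

theorem zz_pow (M : ℕ) : zz M ^ (2 * M + 1) = 1 := by
  rw [← zpow_natCast, zz_zpow]
  have h : (2 * (M : ℝ) + 1) ≠ 0 := by positivity
  have e : ((2 * π * ((2 * M + 1 : ℕ) : ℤ) / (2 * M + 1) : ℝ) : ℂ) = 2 * π := by
    have : (2 * π * (((2 * M + 1 : ℕ) : ℤ) : ℝ) / (2 * M + 1) : ℝ) = 2 * π := by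
      push_cast
      field_simp
    rw [this]
    push_cast
    rfl
  rw [e, Complex.exp_two_pi_mul_I]

theorem Xx_zz (M : ℕ) (n : ℤ) : Xx (zz M) n = -((yy M n : ℝ) : ℂ) := by
  unfold Xx yy
  rw [zz_zpow, zz_zpow]
  have e1 : (4 * π * (n : ℝ) / (2 * M + 1) : ℝ) = 2 * π * ((2 * n : ℤ) : ℝ) / (2 * M + 1) := by
    push_cast
    ring
  have e2 : ((2 * π * ((-(2 * n) : ℤ) : ℝ) / (2 * M + 1) : ℝ) : ℂ) * Complex.I =
      -((2 * π * ((2 * n : ℤ) : ℝ) / (2 * M + 1) : ℝ) : ℂ) * Complex.I := by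
    push_cast
    ring
  rw [e1, e2]
  push_cast
  rw [Complex.cos]
  ring

theorem gauss_half (M : ℕ) : ‖1 + 2 * ∑ b ∈ range M, zz M ^ (((b : ℤ) + 1) ^ 2)‖ ^ 2 = 2 * (M : ℝ) + 1 := by
  have hz := zz_ne M
  have h0 := gauss_sq (2 * M + 1) (odd_two_mul_add_one M)
  have h1 : ∑ x : ZMod (2 * M + 1), (ZMod.stdAddChar (x ^ 2) : ℂ) =
      ∑ x : ZMod (2 * M + 1), (fun n : ℕ => zz M ^ ((n : ℤ) ^ 2)) x.val := by
    apply sum_congr rfl
    intro x _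
    have e1 : x ^ 2 = (((x.val : ℤ) ^ 2 : ℤ) : ZMod (2 * M + 1)) := by
      push_cast
      rw [ZMod.natCast_zmod_val]
    simp only
    rw [e1, ZMod.stdAddChar_coe, zz_zpow]
    congr 1
    push_cast
    ring
  have h2 : ∑ x : ZMod (2 * M + 1), (fun n : ℕ => zz M ^ ((n : ℤ) ^ 2)) x.val =
      ∑ n ∈ range (2 * M + 1), zz M ^ ((n : ℤ) ^ 2) := by
    have := Fin.sum_univ_eq_sum_range (fun n : ℕ => zz M ^ ((n : ℤ) ^ 2)) (2 * M + 1)
    rw [← this]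
    rfl
  have hM' : zz M ^ ((2 * M + 1 : ℕ) : ℤ) = 1 := by
    rw [zpow_natCast]
    exact zz_pow M
  have h3 : ∑ n ∈ range (2 * M + 1), zz M ^ ((n : ℤ) ^ 2) =
      1 + 2 * ∑ b ∈ range M, zz M ^ (((b : ℤ) + 1) ^ 2) := by
    rw [sum_range_succ', two_mul M, Finset.sum_range_add]
    have e2 : ∑ n ∈ range M, zz M ^ (((((M + n : ℕ) + 1 : ℕ) : ℤ)) ^ 2) =
        ∑ b ∈ range M, zz M ^ (((b : ℤ) + 1) ^ 2) := by
      rw [← Finset.sum_range_reflect]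
      apply sum_congr rfl
      intro n hn
      rw [mem_range] at hn
      have e3 : ((((M + (M - 1 - n) : ℕ) + 1 : ℕ) : ℤ)) = ((2 * M + 1 : ℕ) : ℤ) - ((n : ℤ) + 1) := by
        omega
      rw [e3]
      have e4 : (((2 * M + 1 : ℕ) : ℤ) - ((n : ℤ) + 1)) ^ 2 =
          ((2 * M + 1 : ℕ) : ℤ) * (((2 * M + 1 : ℕ) : ℤ) - 2 * ((n : ℤ) + 1)) + ((n : ℤ) + 1) ^ 2 := by ring
      rw [e4, zpow_add₀ hz, zpow_mul, hM', one_zpow, one_mul]
    rw [e2]
    push_cast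
    simp
    ring
  rw [h1, h2, h3] at h0
  rw [h0]
  push_cast
  ring

theorem norm_one_add (φ : ℝ) : ‖1 + Complex.exp ((φ : ℂ) * Complex.I)‖ ^ 2 = (2 * Real.cos (φ / 2)) ^ 2 := by
  rw [← Complex.normSq_eq_norm_sq, Complex.normSq_apply]
  simp only [Complex.add_re, Complex.one_re, Complex.exp_ofReal_mul_I_re, Complex.add_im, Complex.one_im,
    Complex.exp_ofReal_mul_I_im, zero_add]
  have h1 := Real.cos_sq_add_sin_sq φ
  have h2 := Real.cos_sq (φ / 2)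
  rw [show 2 * (φ / 2) = φ by ring] at h2
  nlinarith

theorem norm_one_sub (φ : ℝ) : ‖1 - Complex.exp ((φ : ℂ) * Complex.I)‖ ^ 2 = (2 * Real.sin (φ / 2)) ^ 2 := by
  rw [← Complex.normSq_eq_norm_sq, Complex.normSq_apply]
  simp only [Complex.sub_re, Complex.one_re, Complex.exp_ofReal_mul_I_re, Complex.sub_im, Complex.one_im,
    Complex.exp_ofReal_mul_I_im, zero_sub]
  have h1 := Real.cos_sq_add_sin_sq φ
  have h2 := Real.sin_sq (φ / 2)
  have h3 := Real.cos_sq (φ / 2)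
  rw [show 2 * (φ / 2) = φ by ring] at h3
  nlinarith

theorem norm_T0 (M : ℕ) : ‖Tk (zz M) M 0‖ ^ 2 = (2 * (M : ℝ) + 1) * (2 * Real.sin (π / (2 * M + 1))) ^ 2 := by
  have hz := zz_ne M
  have hM' : zz M ^ ((2 * M + 1 : ℕ) : ℤ) = 1 := by
    rw [zpow_natCast]
    exact zz_pow M
  set h : ℂ := ∑ b ∈ range M, zz M ^ (((b : ℤ) + 1) ^ 2) with hh
  have e0 : Tk (zz M) M 0 = -((1 - zz M ^ (-1 : ℤ)) * (1 + 2 * h)) := by
    have e1' : ∀ N : ℤ, Wk (zz M) 0 N =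
        zz M ^ (-1 : ℤ) * zz M ^ ((N + 1) ^ 2) + zz M ^ (-1 : ℤ) * zz M ^ ((N - 1) ^ 2) -
          2 * zz M ^ (N ^ 2) := by
      intro N
      unfold Wk
      rw [Pk_zero]
      unfold br
      rw [← zpow_add₀ hz, ← zpow_add₀ hz]
      have e2 : (-1 : ℤ) + (N + 1) ^ 2 = (N + N) + N ^ 2 := by ring
      have e3 : (-1 : ℤ) + (N - 1) ^ 2 = (-N + -N) + N ^ 2 := by ring
      rw [e2, e3, zpow_add₀ hz (N + N), zpow_add₀ hz N, zpow_add₀ hz (-N + -N), zpow_add₀ hz (-N)]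
      have e4 : zz M ^ N * zz M ^ (-N) = 1 := by
        rw [← zpow_add₀ hz]
        simp
      generalize zz M ^ (N ^ 2) = w
      linear_combination (-2 * w) * e4
    have e1 : ∀ b : ℕ, Wk (zz M) 0 ((b : ℤ) + 1) =
        zz M ^ (-1 : ℤ) * zz M ^ (((b : ℤ) + 1 + 1) ^ 2) + zz M ^ (-1 : ℤ) * zz M ^ ((b : ℤ) ^ 2) -
          2 * zz M ^ (((b : ℤ) + 1) ^ 2) := by
      intro b
      rw [e1' ((b : ℤ) + 1), add_sub_cancel_right]
    unfold Tk
    simp_rw [e1]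
    rw [Finset.sum_sub_distrib, Finset.sum_add_distrib, ← Finset.mul_sum, ← Finset.mul_sum, ← Finset.mul_sum,
      ← hh]
    have e5 : ∑ b ∈ range M, zz M ^ (((b : ℤ) + 1 + 1) ^ 2) = h + zz M ^ (((M : ℤ) + 1) ^ 2) - zz M := by
      have := Finset.sum_range_succ (fun b : ℕ => zz M ^ (((b : ℤ) + 1) ^ 2)) M
      rw [Finset.sum_range_succ'] at this
      push_cast at this
      rw [← hh] at this
      simp only [zero_add, one_pow, zpow_one] at this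
      linear_combination this
    have e6 : ∑ b ∈ range M, zz M ^ ((b : ℤ) ^ 2) = h + 1 - zz M ^ ((M : ℤ) ^ 2) := by
      have := Finset.sum_range_succ (fun b : ℕ => zz M ^ ((b : ℤ) ^ 2)) M
      rw [Finset.sum_range_succ'] at this
      push_cast at this
      rw [← hh] at this
      simp only [ne_eq, OfNat.ofNat_ne_zero, not_false_eq_true, zero_pow, zpow_zero] at this
      linear_combination -this
    have e7 : zz M ^ (((M : ℤ) + 1) ^ 2) = zz M ^ ((M : ℤ) ^ 2) := by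
      rw [show ((M : ℤ) + 1) ^ 2 = (M : ℤ) ^ 2 + ((2 * M + 1 : ℕ) : ℤ) by push_cast; ring, zpow_add₀ hz, hM',
        mul_one]
    have e8 : zz M ^ (-1 : ℤ) * zz M = 1 := by
      rw [zpow_neg_one]
      exact inv_mul_cancel₀ hz
    rw [e5, e6, e7]
    linear_combination -e8
  rw [e0, norm_neg, norm_mul, mul_pow, gauss_half, mul_comm]
  congr 1
  rw [zz_zpow, norm_one_sub]
  have : (2 * π * ((-1 : ℤ) : ℝ) / (2 * M + 1) / 2 : ℝ) = -(π / (2 * M + 1)) := by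
    push_cast
    ring
  rw [this, Real.sin_neg]
  ring

theorem norm_T (M k : ℕ) : ‖Tk (zz M) M k‖ ^ 2 = (2 * (M : ℝ) + 1) * Ek M k := by
  induction k with
  | zero =>
    rw [norm_T0]
    unfold Ek
    simp
  | succ k ih =>
    rw [rec (zz_ne M) (zz_pow M), norm_mul, norm_mul, norm_neg, mul_pow, mul_pow, ih, zz_zpow, zz_zpow,
      norm_one_add, norm_one_sub]
    unfold Ek
    rw [prod_range_succ (n := k + 1), prod_range_succ (n := k)
      (f := fun j => (2 * Real.cos (π * (2 * (j : ℝ) + 2) / (2 * M + 1))) ^ 2)]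
    have e1 : (2 * π * ((2 * (k : ℤ) + 2 : ℤ) : ℝ) / (2 * M + 1) / 2 : ℝ) = π * (2 * (k : ℝ) + 2) / (2 * M + 1) := by
      push_cast
      ring
    have e2 : (2 * π * ((-(2 * (k : ℤ) + 3) : ℤ) : ℝ) / (2 * M + 1) / 2 : ℝ) =
        -(π * (2 * ((k + 1 : ℕ) : ℝ) + 1) / (2 * M + 1)) := by
      push_cast
      ring
    rw [e1, e2, Real.sin_neg]
    ring

theorem tau_T (trg : S_TRG) (M k : ℕ) :
    tau M (fun b => Complex.exp (2 * π * Complex.I / (2 * M + 1)) ^ ((b + 1) ^ 2)) k =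
      (-1) ^ (k + 1) * Tk (zz M) M k := by
  have hz := zz_ne M
  unfold tau Tk
  rw [Finset.mul_sum]
  apply sum_congr rfl
  intro b _
  have hN : ((b : ℝ) + 1) = (((b : ℤ) + 1 : ℤ) : ℝ) := by push_cast; ring
  have hl : ∀ l : ℕ, ((l : ℝ) + 1) = (((l : ℤ) + 1 : ℤ) : ℝ) := fun l => by push_cast; ring
  rw [trg.2.1]
  unfold Wk
  rw [Pk_eq hz]
  have e1 : br (zz M) ((b : ℤ) + 1) * br (zz M) ((b : ℤ) + 1) = -((yy M ((b : ℝ) + 1) + 2 : ℝ) : ℂ) := by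
    have h1 := Xx_zz M ((b : ℤ) + 1)
    rw [← hN] at h1
    have h2 : br (zz M) ((b : ℤ) + 1) * br (zz M) ((b : ℤ) + 1) = Xx (zz M) ((b : ℤ) + 1) - 2 := by
      have h3 := br_mul hz ((b : ℤ) + 1) 0
      rw [sub_zero, add_zero] at h3
      rw [h3]
      unfold Xx
      simp
      norm_num
    rw [h2, h1]
    push_cast
    ring
  have e2 : ∏ l ∈ range k, (Xx (zz M) ((b : ℤ) + 1) - Xx (zz M) ((l : ℤ) + 1)) =
      (-1) ^ k * ∏ l ∈ range k, (((yy M ((b : ℝ) + 1) - yy M ((l : ℝ) + 1) : ℝ)) : ℂ) := by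
    have h4 : ∀ l ∈ range k, Xx (zz M) ((b : ℤ) + 1) - Xx (zz M) ((l : ℤ) + 1) =
        (-1) * (((yy M ((b : ℝ) + 1) - yy M ((l : ℝ) + 1) : ℝ)) : ℂ) := by
      intro l _
      rw [Xx_zz, Xx_zz, ← hN, ← hl]
      push_cast
      ring
    rw [prod_congr rfl h4, prod_mul_distrib, prod_const, card_range]
  have e3 : Complex.exp (2 * π * Complex.I / (2 * M + 1)) ^ ((b + 1) ^ 2) = zz M ^ (((b : ℤ) + 1) ^ 2) := by
    unfold zz
    rw [← zpow_natCast]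
    congr 1
  have e4 : br (zz M) ((b : ℤ) + 1) * (br (zz M) ((b : ℤ) + 1) *
      ∏ l ∈ range k, (Xx (zz M) ((b : ℤ) + 1) - Xx (zz M) ((l : ℤ) + 1))) * zz M ^ (((b : ℤ) + 1) ^ 2) =
      (br (zz M) ((b : ℤ) + 1) * br (zz M) ((b : ℤ) + 1)) *
      (∏ l ∈ range k, (Xx (zz M) ((b : ℤ) + 1) - Xx (zz M) ((l : ℤ) + 1))) * zz M ^ (((b : ℤ) + 1) ^ 2) := by
    ring
  simp only
  rw [e3, e4, e1, e2, Complex.ofReal_mul, Complex.ofReal_prod]
  have h5 : ((-1 : ℂ) ^ k) * (-1) ^ k = 1 := by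
    rw [← mul_pow]
    norm_num
  rw [pow_succ (-1 : ℂ) k]
  generalize zz M ^ (((b : ℤ) + 1) ^ 2) = w
  generalize ∏ l ∈ range k, (((yy M ((b : ℝ) + 1) - yy M ((l : ℝ) + 1) : ℝ)) : ℂ) = Q
  generalize ((yy M ((b : ℝ) + 1) + 2 : ℝ) : ℂ) = v
  linear_combination (-(v * Q * w)) * h5

end

end Pool.Agent.H68.CYC.Tau

namespace Pool.Agent.H68.CYC

open Pool.Agent.H62.CYC

theorem tau_eq (trg : S_TRG) : S_TAU := by
  intro M k _
  rw [Tau.tau_T trg, norm_mul, norm_pow, norm_neg, norm_one, one_pow, one_mul, Tau.norm_T]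

end Pool.Agent.H68.CYC
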